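import Mathlib
import Pool.Agent.Lib.MP_254873_ag.Defs
import Pool.Agent.Lib.MP_254873_ag.Proof

namespace Pool.Agent.Results.MP_254873_ag.MaxReg

open Pool.Agent.Lib.MP_254873_ag

/-- For all `n ≥ 1` and `d ≥ 1`: `M(1,d) = 0`, `M(2,d) = d`, and `M(n,d) = ∞` for every `n ≥ 3`. -/
theorem result (n d : ℕ) (hn : 1 ≤ n) (hd : 1 ≤ d) :
    M n d = if n = 1 then 0 else if n = 2 then (d : ℕ∞) else ⊤ :=
  main n d hn hd

end Pool.Agent.Results.MP_254873_ag.MaxReg
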